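import Mathlib

/-!
# The seven-mark ruler `{0, 1, 4, 10, 18, 23, 25}` is in no affine image of a Bose set
-/

namespace Pool.Agent.Results.MP_cb32b9_nt.NoSevenMark

/-- The Bose set attached to the generator `θ` of `Kˣ`, where `|K| = q ^ 2` and `F` is the
subfield of `K` with `q` elements. -/
def boseSet (q : ℕ) {K : Type} [Field K] (F : Subfield K) (θ : K) : Set (ZMod (q ^ 2 - 1)) :=
  {a | ∃ v ∈ F, θ ^ a.val = θ + v}

section algebra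

variable {K : Type} [Field K]

/-- coefficients of `1 + ω + ... + ω^(n-1)` with respect to `1, ω` if `ω^2 = s ω - b`. -/
def sq (s b : K) : ℕ → K × K
  | 0 => (0, 0)
  | n + 1 => (1 - b * (sq s b n).2, (sq s b n).1 + s * (sq s b n).2)

theorem sq_succ (s b : K) (n : ℕ) :
    sq s b (n + 1) = (1 - b * (sq s b n).2, (sq s b n).1 + s * (sq s b n).2) := rfl

theorem sq0 (u : K) : sq (u - 1) (u^2 - u + 1) 0 = (0, 0) := by
  rfl

theorem sq1 (u : K) : sq (u - 1) (u^2 - u + 1) 1 = (1, 0) := by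
  rw [sq_succ, sq0]
  apply Prod.ext
  · show _ = _
    ring
  · show _ = _
    ring

theorem sq2 (u : K) : sq (u - 1) (u^2 - u + 1) 2 = (1, 1) := by
  rw [sq_succ, sq1]
  apply Prod.ext
  · show _ = _
    ring
  · show _ = _
    ring

theorem sq3 (u : K) : sq (u - 1) (u^2 - u + 1) 3 = (-u^2 + u, u) := by
  rw [sq_succ, sq2]
  apply Prod.ext
  · show _ = _
    ring
  · show _ = _
    ring

theorem sq4 (u : K) : sq (u - 1) (u^2 - u + 1) 4 = (-u^3 + u^2 - u + 1, 0) := by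
  rw [sq_succ, sq3]
  apply Prod.ext
  · show _ = _
    ring
  · show _ = _
    ring

theorem sq5 (u : K) : sq (u - 1) (u^2 - u + 1) 5 = (1, -u^3 + u^2 - u + 1) := by
  rw [sq_succ, sq4]
  apply Prod.ext
  · show _ = _
    ring
  · show _ = _
    ring

theorem sq6 (u : K) : sq (u - 1) (u^2 - u + 1) 6 = (u^5 - 2*u^4 + 3*u^3 - 3*u^2 + 2*u, -u^4 + 2*u^3 - 2*u^2 + 2*u) := by
  rw [sq_succ, sq5]
  apply Prod.ext
  · show _ = _
    ring
  · show _ = _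
    ring

theorem sq7 (u : K) : sq (u - 1) (u^2 - u + 1) 7 = (u^6 - 3*u^5 + 5*u^4 - 6*u^3 + 4*u^2 - 2*u + 1, u^4 - u^3 + u^2) := by
  rw [sq_succ, sq6]
  apply Prod.ext
  · show _ = _
    ring
  · show _ = _
    ring

theorem sq8 (u : K) : sq (u - 1) (u^2 - u + 1) 8 = (-u^6 + 2*u^5 - 3*u^4 + 2*u^3 - u^2 + 1, u^6 - 2*u^5 + 3*u^4 - 4*u^3 + 3*u^2 - 2*u + 1) := by
  rw [sq_succ, sq7]
  apply Prod.ext
  · show _ = _
    ring
  · show _ = _
    ring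

theorem sq9 (u : K) : sq (u - 1) (u^2 - u + 1) 9 = (-u^8 + 3*u^7 - 6*u^6 + 9*u^5 - 10*u^4 + 9*u^3 - 6*u^2 + 3*u, u^7 - 4*u^6 + 7*u^5 - 10*u^4 + 9*u^3 - 6*u^2 + 3*u) := by
  rw [sq_succ, sq8]
  apply Prod.ext
  · show _ = _
    ring
  · show _ = _
    ring

theorem sq10 (u : K) : sq (u - 1) (u^2 - u + 1) 10 = (-u^9 + 5*u^8 - 12*u^7 + 21*u^6 - 26*u^5 + 25*u^4 - 18*u^3 + 9*u^2 - 3*u + 1, -2*u^7 + 5*u^6 - 8*u^5 + 9*u^4 - 6*u^3 + 3*u^2) := by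
  rw [sq_succ, sq9]
  apply Prod.ext
  · show _ = _
    ring
  · show _ = _
    ring

theorem sq11 (u : K) : sq (u - 1) (u^2 - u + 1) 11 = (2*u^9 - 7*u^8 + 15*u^7 - 22*u^6 + 23*u^5 - 18*u^4 + 9*u^3 - 3*u^2 + 1, -u^9 + 3*u^8 - 5*u^7 + 8*u^6 - 9*u^5 + 10*u^4 - 9*u^3 + 6*u^2 - 3*u + 1) := by
  rw [sq_succ, sq10]
  apply Prod.ext
  · show _ = _
    ring
  · show _ = _
    ring

theorem sq12 (u : K) : sq (u - 1) (u^2 - u + 1) 12 = (u^11 - 4*u^10 + 9*u^9 - 16*u^8 + 22*u^7 - 27*u^6 + 28*u^5 - 25*u^4 + 18*u^3 - 10*u^2 + 4*u, -u^10 + 6*u^9 - 15*u^8 + 28*u^7 - 39*u^6 + 42*u^5 - 37*u^4 + 24*u^3 - 12*u^2 + 4*u) := by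
  rw [sq_succ, sq11]
  apply Prod.ext
  · show _ = _
    ring
  · show _ = _
    ring

theorem sq13 (u : K) : sq (u - 1) (u^2 - u + 1) 13 = (u^12 - 7*u^11 + 22*u^10 - 49*u^9 + 82*u^8 - 109*u^7 + 118*u^6 - 103*u^5 + 73*u^4 - 40*u^3 + 16*u^2 - 4*u + 1, 3*u^10 - 12*u^9 + 27*u^8 - 45*u^7 + 54*u^6 - 51*u^5 + 36*u^4 - 18*u^3 + 6*u^2) := by
  rw [sq_succ, sq12]
  apply Prod.ext
  · show _ = _
    ring
  · show _ = _
    ring

theorem sq14 (u : K) : sq (u - 1) (u^2 - u + 1) 14 = (-3*u^12 + 15*u^11 - 42*u^10 + 84*u^9 - 126*u^8 + 150*u^7 - 141*u^6 + 105*u^5 - 60*u^4 + 24*u^3 - 6*u^2 + 1, u^12 - 4*u^11 + 7*u^10 - 10*u^9 + 10*u^8 - 10*u^7 + 13*u^6 - 16*u^5 + 19*u^4 - 16*u^3 + 10*u^2 - 4*u + 1) := by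
  rw [sq_succ, sq13]
  apply Prod.ext
  · show _ = _
    ring
  · show _ = _
    ring

theorem sq15 (u : K) : sq (u - 1) (u^2 - u + 1) 15 = (-u^14 + 5*u^13 - 12*u^12 + 21*u^11 - 27*u^10 + 30*u^9 - 33*u^8 + 39*u^7 - 48*u^6 + 51*u^5 - 45*u^4 + 30*u^3 - 15*u^2 + 5*u, u^13 - 8*u^12 + 26*u^11 - 59*u^10 + 104*u^9 - 146*u^8 + 173*u^7 - 170*u^6 + 140*u^5 - 95*u^4 + 50*u^3 - 20*u^2 + 5*u) := by
  rw [sq_succ, sq14]
  apply Prod.ext
  · show _ = _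
    ring
  · show _ = _
    ring

theorem sq16 (u : K) : sq (u - 1) (u^2 - u + 1) 16 = (-u^15 + 9*u^14 - 35*u^13 + 93*u^12 - 189*u^11 + 309*u^10 - 423*u^9 + 489*u^8 - 483*u^7 + 405*u^6 - 285*u^5 + 165*u^4 - 75*u^3 + 25*u^2 - 5*u + 1, -4*u^13 + 22*u^12 - 64*u^11 + 136*u^10 - 220*u^9 + 286*u^8 - 304*u^7 + 262*u^6 - 184*u^5 + 100*u^4 - 40*u^3 + 10*u^2) := by
  rw [sq_succ, sq15]
  apply Prod.ext
  · show _ = _
    ring
  · show _ = _
    ring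

theorem sq17 (u : K) : sq (u - 1) (u^2 - u + 1) 17 = (4*u^15 - 26*u^14 + 90*u^13 - 222*u^12 + 420*u^11 - 642*u^10 + 810*u^9 - 852*u^8 + 750*u^7 - 546*u^6 + 324*u^5 - 150*u^4 + 50*u^3 - 10*u^2 + 1, -u^15 + 5*u^14 - 9*u^13 + 7*u^12 + 11*u^11 - 47*u^10 + 83*u^9 - 101*u^8 + 83*u^7 - 41*u^6 - u^5 + 25*u^4 - 25*u^3 + 15*u^2 - 5*u + 1) := by
  rw [sq_succ, sq16]
  apply Prod.ext
  · show _ = _
    ring
  · show _ = _
    ring

theorem sq18 (u : K) : sq (u - 1) (u^2 - u + 1) 18 = (u^17 - 6*u^16 + 15*u^15 - 21*u^14 + 5*u^13 + 51*u^12 - 141*u^11 + 231*u^10 - 267*u^9 + 225*u^8 - 123*u^7 + 15*u^6 + 51*u^5 - 65*u^4 + 45*u^3 - 21*u^2 + 6*u, -u^16 + 10*u^15 - 40*u^14 + 106*u^13 - 218*u^12 + 362*u^11 - 512*u^10 + 626*u^9 - 668*u^8 + 626*u^7 - 506*u^6 + 350*u^5 - 200*u^4 + 90*u^3 - 30*u^2 + 6*u) := by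
  rw [sq_succ, sq17]
  apply Prod.ext
  · show _ = _
    ring
  · show _ = _
    ring

theorem sq19 (u : K) : sq (u - 1) (u^2 - u + 1) 19 = (u^18 - 11*u^17 + 51*u^16 - 156*u^15 + 364*u^14 - 686*u^13 + 1092*u^12 - 1500*u^11 + 1806*u^10 - 1920*u^9 + 1800*u^8 - 1482*u^7 + 1056*u^6 - 640*u^5 + 320*u^4 - 126*u^3 + 36*u^2 - 6*u + 1, 5*u^16 - 35*u^15 + 125*u^14 - 319*u^13 + 631*u^12 - 1015*u^11 + 1369*u^10 - 1561*u^9 + 1519*u^8 - 1255*u^7 + 871*u^6 - 499*u^5 + 225*u^4 - 75*u^3 + 15*u^2) := by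
  rw [sq_succ, sq18]
  apply Prod.ext
  · show _ = _
    ring
  · show _ = _
    ring

theorem sq20 (u : K) : sq (u - 1) (u^2 - u + 1) 20 = (-5*u^18 + 40*u^17 - 165*u^16 + 479*u^15 - 1075*u^14 + 1965*u^13 - 3015*u^12 + 3945*u^11 - 4449*u^10 + 4335*u^9 - 3645*u^8 + 2625*u^7 - 1595*u^6 + 799*u^5 - 315*u^4 + 90*u^3 - 15*u^2 + 1, u^18 - 6*u^17 + 11*u^16 + 4*u^15 - 80*u^14 + 264*u^13 - 554*u^12 + 884*u^11 - 1124*u^10 + 1160*u^9 - 974*u^8 + 644*u^7 - 314*u^6 + 84*u^5 + 20*u^4 - 36*u^3 + 21*u^2 - 6*u + 1) := by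
  rw [sq_succ, sq19]
  apply Prod.ext
  · show _ = _
    ring
  · show _ = _
    ring

theorem sq21 (u : K) : sq (u - 1) (u^2 - u + 1) 21 = (-u^20 + 7*u^19 - 18*u^18 + 13*u^17 + 73*u^16 - 348*u^15 + 898*u^14 - 1702*u^13 + 2562*u^12 - 3168*u^11 + 3258*u^10 - 2778*u^9 + 1932*u^8 - 1042*u^7 + 378*u^6 - 28*u^5 - 77*u^4 + 63*u^3 - 28*u^2 + 7*u, u^19 - 12*u^18 + 57*u^17 - 172*u^16 + 395*u^15 - 731*u^14 + 1147*u^13 - 1577*u^12 + 1937*u^11 - 2165*u^10 + 2201*u^9 - 2027*u^8 + 1667*u^7 - 1197*u^6 + 735*u^5 - 371*u^4 + 147*u^3 - 42*u^2 + 7*u) := by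
  rw [sq_succ, sq20]
  apply Prod.ext
  · show _ = _
    ring
  · show _ = _
    ring

theorem sq22 (u : K) : sq (u - 1) (u^2 - u + 1) 22 = (-u^21 + 13*u^20 - 70*u^19 + 241*u^18 - 624*u^17 + 1298*u^16 - 2273*u^15 + 3455*u^14 - 4661*u^13 + 5679*u^12 - 6303*u^11 + 6393*u^10 - 5895*u^9 + 4891*u^8 - 3599*u^7 + 2303*u^6 - 1253*u^5 + 560*u^4 - 196*u^3 + 49*u^2 - 7*u + 1, -6*u^19 + 51*u^18 - 216*u^17 + 640*u^16 - 1474*u^15 + 2776*u^14 - 4426*u^13 + 6076*u^12 - 7270*u^11 + 7624*u^10 - 7006*u^9 + 5626*u^8 - 3906*u^7 + 2310*u^6 - 1134*u^5 + 441*u^4 - 126*u^3 + 21*u^2) := by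
  rw [sq_succ, sq21]
  apply Prod.ext
  · show _ = _
    ring
  · show _ = _
    ring

theorem sq23 (u : K) : sq (u - 1) (u^2 - u + 1) 23 = (6*u^21 - 57*u^20 + 273*u^19 - 907*u^18 + 2330*u^17 - 4890*u^16 + 8676*u^15 - 13278*u^14 + 17772*u^13 - 20970*u^12 + 21900*u^11 - 20256*u^10 + 16538*u^9 - 11842*u^8 + 7350*u^7 - 3885*u^6 + 1701*u^5 - 588*u^4 + 147*u^3 - 21*u^2 + 1, -u^21 + 7*u^20 - 13*u^19 - 26*u^18 + 232*u^17 - 816*u^16 + 1977*u^15 - 3747*u^14 + 5841*u^13 - 7667*u^12 + 8591*u^11 - 8237*u^10 + 6737*u^9 - 4641*u^8 + 2617*u^7 - 1141*u^6 + 322*u^5 - 7*u^4 - 49*u^3 + 28*u^2 - 7*u + 1) := by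
  rw [sq_succ, sq22]
  apply Prod.ext
  · show _ = _
    ring
  · show _ = _
    ring

theorem sq24 (u : K) : sq (u - 1) (u^2 - u + 1) 24 = (u^23 - 8*u^22 + 21*u^21 + 6*u^20 - 245*u^19 + 1074*u^18 - 3025*u^17 + 6540*u^16 - 11565*u^15 + 17255*u^14 - 22099*u^13 + 24495*u^12 - 23565*u^11 + 19615*u^10 - 13995*u^9 + 8399*u^8 - 4080*u^7 + 1470*u^6 - 280*u^5 - 70*u^4 + 84*u^3 - 36*u^2 + 8*u, -u^22 + 14*u^21 - 77*u^20 + 260*u^19 - 649*u^18 + 1282*u^17 - 2097*u^16 + 2952*u^15 - 3690*u^14 + 4264*u^13 - 4712*u^12 + 5072*u^11 - 5282*u^10 + 5160*u^9 - 4584*u^8 + 3592*u^7 - 2422*u^6 + 1372*u^5 - 630*u^4 + 224*u^3 - 56*u^2 + 8*u) := by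
  rw [sq_succ, sq23]
  apply Prod.ext
  · show _ = _
    ring
  · show _ = _
    ring

theorem sq25 (u : K) : sq (u - 1) (u^2 - u + 1) 25 = (u^24 - 15*u^23 + 92*u^22 - 351*u^21 + 986*u^20 - 2191*u^19 + 4028*u^18 - 6331*u^17 + 8739*u^16 - 10906*u^15 + 12666*u^14 - 14048*u^13 + 15066*u^12 - 15514*u^11 + 15026*u^10 - 13336*u^9 + 10598*u^8 - 7386*u^7 + 4424*u^6 - 2226*u^5 + 910*u^4 - 288*u^3 + 64*u^2 - 8*u + 1, 7*u^22 - 70*u^21 + 343*u^20 - 1154*u^19 + 3005*u^18 - 6404*u^17 + 11589*u^16 - 18207*u^15 + 25209*u^14 - 31075*u^13 + 34279*u^12 - 33919*u^11 + 30057*u^10 - 23739*u^9 + 16575*u^8 - 10094*u^7 + 5264*u^6 - 2282*u^5 + 784*u^4 - 196*u^3 + 28*u^2) := by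
  rw [sq_succ, sq24]
  apply Prod.ext
  · show _ = _
    ring
  · show _ = _
    ring

theorem bezout (u : K) (h10 : (sq (u - 1) (u^2 - u + 1) 10).2 = 0)
    (h23 : (sq (u - 1) (u^2 - u + 1) 23).2 = 0)
    (h25 : (sq (u - 1) (u^2 - u + 1) 25).2 = 0) : (1 : K) = 0 := by
  rw [sq10] at h10
  rw [sq23] at h23
  rw [sq25] at h25
  dsimp only at h10 h23 h25
  linear_combination (-1668*u^20 - 1449*u^19 - 477*u^18 + 402*u^17 - 10139*u^16 + 178463*u^15 - 824204*u^14 + 2734686*u^13 - 6236981*u^12 + 11763290*u^11 - 18105494*u^10 + 24020342*u^9 - 27627337*u^8 + 27522068*u^7 - 24097348*u^6 + 18088971*u^5 - 11665831*u^4 + 6327958*u^3 - 2697321*u^2 + 914030*u - 186295) * h10 +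
    (-30187*u^6 - 1704*u^5 - 31891*u^4 + 1711*u^3 - 33602*u^2 + 7*u + 1) * h23 +
    (-4789*u^5 - 17169*u^4 + 3050*u^3 + 72*u^2 + 1808*u + 21161) * h25

theorem final (s b : K) (h4 : (sq s b 4).2 = 0) (h10 : (sq s b 10).2 = 0)
    (h23 : (sq s b 23).2 = 0) (h25 : (sq s b 25).2 = 0) : False := by
  have hb : b = (s + 1) ^ 2 - (s + 1) + 1 := by
    simp only [sq] at h4
    linear_combination -h4
  have hs : s = (s + 1) - 1 := by ring
  have h1 : (1 : K) = 0 := by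
    apply bezout (s + 1)
    · rw [← hb, ← hs]; exact h10
    · rw [← hb, ← hs]; exact h23
    · rw [← hb, ← hs]; exact h25
  exact one_ne_zero h1

end algebra

/-- There are no prime power `q`, integer `m` and residue `s` for which
`{0, 1, 4, 10, 18, 23, 25}` is contained in `m * Bose(q) + s` modulo `q ^ 2 - 1`. -/
theorem result (q : ℕ) (hq : IsPrimePow q) (K : Type) [Field K] (hK : Nat.card K = q ^ 2)
    (F : Subfield K) (hF : Nat.card F = q) (θ : K) (hθ0 : θ ≠ 0)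
    (hθ : ∀ x : K, x ≠ 0 → ∃ n : ℕ, θ ^ n = x) (m : ℤ) (s : ZMod (q ^ 2 - 1)) :
    ¬ ∀ t : ℕ, t ∈ ({0, 1, 4, 10, 18, 23, 25} : Set ℕ) →
      ∃ a ∈ boseSet q F θ, (t : ZMod (q ^ 2 - 1)) = (m : ZMod (q ^ 2 - 1)) * a + s := by
  intro hT
  have hq2 : 2 ≤ q := hq.two_le
  have hM3 : 3 ≤ q ^ 2 - 1 := by
    have : 2 ^ 2 ≤ q ^ 2 := Nat.pow_le_pow_left hq2 2
    omega
  obtain ⟨M, hM⟩ : ∃ M, M = q ^ 2 - 1 := ⟨_, rfl⟩
  unfold boseSet at hT
  rw [← hM] at hM3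
  revert s hT
  rw [← hM]
  intro s hT
  have : NeZero M := ⟨by omega⟩
  have : Fact (1 < M) := ⟨by omega⟩
  have hqq : q < q ^ 2 := by nlinarith
  have : Finite K := Nat.finite_of_card_ne_zero (by rw [hK]; positivity)
  have := Fintype.ofFinite K
  have hcard : Fintype.card K = q ^ 2 := by rw [← Nat.card_eq_fintype_card, hK]
  have hpow : θ ^ M = 1 := by
    have := FiniteField.pow_card_sub_one_eq_one θ hθ0
    rwa [hcard, ← hM] at this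
  have hinj : ∀ n : ℕ, 0 < n → n < M → θ ^ n ≠ 1 := by
    intro n hn hnM h1
    have hsub : {x : K | x ≠ 0} ⊆ (fun i : ℕ => θ ^ i) '' (Set.Iio n) := by
      intro x hx
      obtain ⟨k, hk⟩ := hθ x hx
      refine ⟨k % n, Nat.mod_lt _ hn, ?_⟩
      show θ ^ (k % n) = x
      rw [← hk, pow_eq_pow_mod k h1]
    have h2 : ({x : K | x ≠ 0}).ncard ≤ n := by
      calc _ ≤ ((fun i : ℕ => θ ^ i) '' (Set.Iio n)).ncard :=
            Set.ncard_le_ncard hsub ((Set.finite_Iio n).image _)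
        _ ≤ (Set.Iio n).ncard := Set.ncard_image_le (Set.finite_Iio n)
        _ = n := by rw [← Finset.coe_Iio, Set.ncard_coe_finset]; simp
    have h3 : ({x : K | x ≠ 0}).ncard = q ^ 2 - 1 := by
      have : {x : K | x ≠ 0} = ({0} : Set K)ᶜ := by ext x; simp
      rw [this, Set.ncard_compl, Set.ncard_singleton, hK]
    omega
  -- the exponential
  have Eadd : ∀ a b : ZMod M, θ ^ (a + b).val = θ ^ a.val * θ ^ b.val := by
    intro a b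
    rw [ZMod.val_add, ← pow_add, ← pow_eq_pow_mod _ hpow]
  have Emul : ∀ (n : ℕ) (a : ZMod M), θ ^ ((n : ZMod M) * a).val = (θ ^ a.val) ^ n := by
    intro n a
    induction n with
    | zero => simp
    | succ n ih =>
      have : ((n + 1 : ℕ) : ZMod M) * a = (n : ZMod M) * a + a := by push_cast; ring
      rw [this, Eadd, ih, pow_succ]
  obtain ⟨a0, ⟨v0, hv0, hE0⟩, h0⟩ := hT 0 (by simp)
  obtain ⟨a1, ⟨v1, hv1, hE1⟩, h1⟩ := hT 1 (by simp)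
  have hmu : (m : ZMod M) * (a1 - a0) = 1 := by
    push_cast at h0 h1
    linear_combination h0 - h1
  obtain ⟨ω, hω⟩ : ∃ ω, ω = θ ^ (a1 - a0).val := ⟨_, rfl⟩
  obtain ⟨κ, hκ⟩ : ∃ κ, κ = θ ^ a0.val := ⟨_, rfl⟩
  have hκ0 : κ ≠ 0 := by rw [hκ]; exact pow_ne_zero _ hθ0
  have hω1 : ω ≠ 1 := by
    rw [hω]
    apply hinj
    · rw [Nat.pos_iff_ne_zero, Ne, ZMod.val_eq_zero]
      intro h
      rw [h, mul_zero] at hmu
      exact zero_ne_one hmu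
    · exact ZMod.val_lt _
  have hat : ∀ t : ℕ, t ∈ ({0, 1, 4, 10, 18, 23, 25} : Set ℕ) → κ * ω ^ t - θ ∈ F := by
    intro t ht
    obtain ⟨a, ⟨v, hv, hE⟩, hta⟩ := hT t ht
    have h2 : a = (t : ZMod M) * (a1 - a0) + a0 := by
      push_cast at h0
      linear_combination (a0 - a) * hmu + (a1 - a0) * h0 - (a1 - a0) * hta
    have h3 : θ ^ a.val = κ * ω ^ t := by
      rw [h2, Eadd, Emul, hω, hκ, mul_comm]
    rw [← h3, hE]
    simpa using hv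
  have hc0 : κ - θ ∈ F := by simpa using hat 0 (by simp)
  have hc1 : κ * ω - θ ∈ F := by simpa using hat 1 (by simp)
  have hc : κ * (ω - 1) ∈ F := by
    have := F.sub_mem hc1 hc0
    convert this using 1
    ring
  have hcne : κ * (ω - 1) ≠ 0 := mul_ne_zero hκ0 (sub_ne_zero.2 hω1)
  have hωF : ω ∉ F := by
    intro h
    have hκF : κ ∈ F := by
      have h2 : ω - 1 ∈ F := F.sub_mem h F.one_mem
      have h3 := F.div_mem hc h2
      rwa [mul_div_cancel_right₀ _ (sub_ne_zero.2 hω1)] at h3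
    have hθF : θ ∈ F := by
      have := F.sub_mem hκF hc0
      simpa using this
    have hall : ∀ x : K, x ∈ F := by
      intro x
      by_cases hx : x = 0
      · rw [hx]; exact F.zero_mem
      · obtain ⟨n, rfl⟩ := hθ x hx
        exact F.pow_mem hθF n
    have h2 : Nat.card F = Nat.card K :=
      Nat.card_congr (Equiv.subtypeUnivEquiv hall)
    rw [hF, hK] at h2
    omega
  -- `K = F + F ω`
  have hspan : ∀ x : K, ∃ a b : K, a ∈ F ∧ b ∈ F ∧ x = a + b * ω := by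
    have hinj2 : Function.Injective (fun p : F × F => (p.1 : K) + (p.2 : K) * ω) := by
      rintro ⟨⟨a, ha⟩, ⟨b, hb⟩⟩ ⟨⟨a', ha'⟩, ⟨b', hb'⟩⟩ h
      simp only at h
      have hbb : b = b' := by
        by_contra hne
        apply hωF
        have h2 : ω = (a' - a) / (b - b') := by
          rw [eq_div_iff (sub_ne_zero.2 hne)]
          linear_combination h
        rw [h2]
        exact F.div_mem (F.sub_mem ha' ha) (F.sub_mem hb hb')
      subst hbb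
      have haa : a = a' := by simpa using h
      subst haa
      rfl
    have hbij := hinj2.bijective_of_nat_card_le (by
      rw [Nat.card_prod, hF, hK, pow_two])
    intro x
    obtain ⟨⟨a, b⟩, hab⟩ := hbij.2 x
    exact ⟨a, b, a.2, b.2, hab.symm⟩
  obtain ⟨b', s', hb', hs', hquad⟩ := hspan (ω ^ 2)
  have hsq : ∀ n : ℕ, (sq s' (-b') n).1 ∈ F ∧ (sq s' (-b') n).2 ∈ F ∧
      ∑ i ∈ Finset.range n, ω ^ i = (sq s' (-b') n).1 + (sq s' (-b') n).2 * ω := by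
    intro n
    induction n with
    | zero => exact ⟨F.zero_mem, F.zero_mem, by simp [sq]⟩
    | succ n ih =>
      obtain ⟨ih1, ih2, ih3⟩ := ih
      refine ⟨?_, ?_, ?_⟩
      · exact F.sub_mem F.one_mem (F.mul_mem (F.neg_mem hb') ih2)
      · exact F.add_mem ih1 (F.mul_mem hs' ih2)
      · rw [Finset.sum_range_succ']
        have : ∑ i ∈ Finset.range n, ω ^ (i + 1) = ω * ∑ i ∈ Finset.range n, ω ^ i := by
          rw [Finset.mul_sum]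
          apply Finset.sum_congr rfl
          intro i _
          rw [pow_succ, mul_comm]
        rw [this, ih3, sq_succ]
        dsimp only
        linear_combination (sq s' (-b') n).2 * hquad
  have hzero : ∀ t : ℕ, t ∈ ({0, 1, 4, 10, 18, 23, 25} : Set ℕ) → (sq s' (-b') t).2 = 0 := by
    intro t ht
    obtain ⟨h2, h3, h4⟩ := hsq t
    have h5 : ∑ i ∈ Finset.range t, ω ^ i ∈ F := by
      have h6 : (∑ i ∈ Finset.range t, ω ^ i) * (ω - 1) = ω ^ t - 1 := geom_sum_mul ω t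
      have h7 : κ * ω ^ t - κ ∈ F := by
        have := F.sub_mem (hat t ht) hc0
        convert this using 1
        ring
      have h8 : ∑ i ∈ Finset.range t, ω ^ i = (κ * ω ^ t - κ) / (κ * (ω - 1)) := by
        rw [eq_div_iff hcne]
        linear_combination κ * h6
      rw [h8]
      exact F.div_mem h7 hc
    by_contra hne
    apply hωF
    have h9 : ω = (∑ i ∈ Finset.range t, ω ^ i - (sq s' (-b') t).1) / (sq s' (-b') t).2 := by
      rw [eq_div_iff hne]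
      linear_combination -h4
    rw [h9]
    exact F.div_mem (F.sub_mem h5 h2) h3
  exact final s' (-b') (hzero 4 (by simp)) (hzero 10 (by simp)) (hzero 23 (by simp))
    (hzero 25 (by simp))

end Pool.Agent.Results.MP_cb32b9_nt.NoSevenMark
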